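import Pool.Agent.N986.JF.Out
import Pool.Agent.N987.JF.ANDR
import Pool.Agent.N991.JF.Nil

/-!
# Finite generation of the terms of the Johnson filtration
-/

set_option autoImplicit false

namespace Pool.Agent.N986.JF

open Pool.Agent.N991.JF
open scoped commutatorElement

/-- The fundamental group of the closed oriented surface of genus `g`: generators `a_i`, `b_i`
(`i < g`) and the relation `[a_0,b_0] [a_1,b_1] ⋯ = 1`. -/
def Surf (g : ℕ) : Type :=
  PresentedGroup ({(List.ofFn fun i : Fin g =>
    ⁅(FreeGroup.of (i, false) : FreeGroup (Fin g × Bool)), FreeGroup.of (i, true)⁆).prod} :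
      Set (FreeGroup (Fin g × Bool)))

instance (g : ℕ) : Group (Surf g) := by
  unfold Surf
  infer_instance

theorem johnson_antitone (π : Type) [Group π] {i j : ℕ} (h : i ≤ j) :
    johnson π j ≤ johnson π i := by
  rw [johnson_eq, johnson_eq]
  refine Subgroup.map_mono ?_
  intro α hα x
  exact Subgroup.lowerCentralSeries_antitone _ h (hα x)

/-- All subgroups of the group `I(1)` which contain a term of the Johnson filtration. -/
theorem johnson_fg (π : Type) [Group π] (h1 : (johnson π 1).FG)
    (h2 : (commutator (johnson π 1)).FG) (k : ℕ) (K : Subgroup (Out π))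
    (hK1 : K ≤ johnson π 1) (hK : johnson π (k + 1) ≤ K) : K.FG := by
  have hG : Group.FG (johnson π 1) := (Group.fg_iff_subgroup_fg _).mpr h1
  have h3 : (K.subgroupOf (johnson π 1)).FG := by
    refine fg_of_lcs hG h2 k _ ((lcs_le Pool.Agent.N987.JF.t_ANDR π k).trans ?_)
    exact Subgroup.comap_mono hK
  have h4 : (K.subgroupOf (johnson π 1)).map (johnson π 1).subtype = K := by
    rw [Subgroup.subgroupOf_map_subtype, inf_eq_left.mpr hK1]
  obtain ⟨S, hS, hfS⟩ := (Subgroup.fg_iff _).mp h3
  refine (Subgroup.fg_iff K).mpr ⟨(johnson π 1).subtype '' S, ?_, hfS.image _⟩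
  rw [← MonoidHom.map_closure, hS, h4]

theorem h1_finite {G : Type} [Group G] (K : Subgroup G) (h : K.FG) :
    Module.Finite ℤ (Additive (Abelianization K)) := by
  have h1 : Group.FG K := (Group.fg_iff_subgroup_fg K).mpr h
  have h2 : Group.FG (Abelianization K) :=
    Group.fg_of_surjective (f := (Abelianization.of : K →* Abelianization K))
      (fun x => QuotientGroup.mk_surjective x)
  have h3 : AddGroup.FG (Additive (Abelianization K)) := inferInstance
  exact Module.Finite.iff_addGroup_fg.mpr h3

end Pool.Agent.N986.JF
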