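import Pool.Agent.N991.JF.Stm

/-!
# Project JF (helper991): outer automorphisms and the Johnson filtration
-/

set_option autoImplicit false

namespace Pool.Agent.N986.JF

open Pool.Agent.N991.JF
open scoped commutatorElement

/-- The group of inner automorphisms. -/
def Inn (π : Type) [Group π] : Subgroup (MulAut π) := (MulAut.conj : π →* MulAut π).range

instance inn_normal (π : Type) [Group π] : (Inn π).Normal := by
  refine ⟨?_⟩
  rintro _ ⟨g, rfl⟩ α
  refine ⟨α g, ?_⟩
  ext x
  simp only [MulAut.mul_apply, MulAut.conj_apply, map_mul, map_inv, MulAut.apply_inv_self]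

/-- The group of outer automorphisms. -/
abbrev Out (π : Type) [Group π] : Type := MulAut π ⧸ Inn π

theorem gam_map {π : Type} [Group π] (k : ℕ) (α : MulAut π) :
    (gam π k).map (α : π ≃* π).toMonoidHom = gam π k := by
  rw [gam, Subgroup.map_lowerCentralSeries]
  have h1 : (⊤ : Subgroup π).map (α : π ≃* π).toMonoidHom = ⊤ :=
    Subgroup.map_top_of_surjective _ (α : π ≃* π).surjective
  rw [h1]

/-- The action of an automorphism of `π` on the characteristic quotient `π / γ_{k+1}(π)`. -/
def autMap (π : Type) [Group π] (k : ℕ) : MulAut π →* MulAut (π ⧸ gam π k) where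
  toFun α := QuotientGroup.congr (gam π k) (gam π k) α (gam_map k α)
  map_one' := by
    ext q
    induction q using QuotientGroup.induction_on with
    | H x => rfl
  map_mul' α β := by
    ext q
    induction q using QuotientGroup.induction_on with
    | H x => rfl

theorem autMap_mk (π : Type) [Group π] (k : ℕ) (α : MulAut π) (x : π) :
    autMap π k α (x : π ⧸ gam π k) = ((α x : π) : π ⧸ gam π k) := rfl

theorem inn_le (π : Type) [Group π] (k : ℕ) :
    Inn π ≤ (Inn (π ⧸ gam π k)).comap (autMap π k) := by
  rintro _ ⟨g, rfl⟩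
  rw [Subgroup.mem_comap]
  refine ⟨(g : π ⧸ gam π k), ?_⟩
  ext q
  induction q using QuotientGroup.induction_on with
  | H x => rfl

/-- The action of the outer automorphisms of `π` on `π / γ_{k+1}(π)`. -/
def outMap (π : Type) [Group π] (k : ℕ) : Out π →* Out (π ⧸ gam π k) :=
  QuotientGroup.map (Inn π) (Inn (π ⧸ gam π k)) (autMap π k) (inn_le π k)

/-- The `k`-th term of the Johnson filtration: the kernel of `Out(π) → Out(π / γ_{k+1}(π))`. -/
def johnson (π : Type) [Group π] (k : ℕ) : Subgroup (Out π) := (outMap π k).ker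

theorem outMap_mk (π : Type) [Group π] (k : ℕ) (α : MulAut π) :
    outMap π k (α : Out π) = ((autMap π k α : MulAut (π ⧸ gam π k)) : Out (π ⧸ gam π k)) := rfl

theorem mem_autJ {π : Type} [Group π] {k : ℕ} {α : MulAut π} :
    α ∈ autJ π k ↔ autMap π k α = 1 := by
  constructor
  · intro h
    ext q
    induction q using QuotientGroup.induction_on with
    | H x =>
      rw [autMap_mk, MulAut.one_apply, QuotientGroup.eq]
      have h1 := (gam π k).inv_mem (h x)
      have hn : (gam π k).Normal := inferInstance
      have h2 := hn.conj_mem _ h1 x⁻¹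
      have e : x⁻¹ * (α x * x⁻¹)⁻¹ * x⁻¹⁻¹ = (α x)⁻¹ * x := by group
      rwa [e] at h2
  · intro h x
    have h1 := congrArg (fun β : MulAut (π ⧸ gam π k) => β (x : π ⧸ gam π k)) h
    simp only [autMap_mk, MulAut.one_apply] at h1
    rw [QuotientGroup.eq] at h1
    have h2 := (gam π k).inv_mem h1
    have hn : (gam π k).Normal := inferInstance
    have h3 := hn.conj_mem _ h2 x
    have e : x * ((α x)⁻¹ * x)⁻¹ * x⁻¹ = α x * x⁻¹ := by
      rw [mul_inv_rev, inv_inv]
      group
    rw [e] at h3
    exact h3

/-- The `k`-th term of the Johnson filtration is the image of the group of the automorphisms which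
act trivially on `π / γ_{k+1}(π)`. -/
theorem johnson_eq (π : Type) [Group π] (k : ℕ) :
    johnson π k = (autJ π k).map (QuotientGroup.mk' (Inn π)) := by
  ext q
  constructor
  · intro hq
    induction q using QuotientGroup.induction_on with
    | H α =>
      rw [johnson, MonoidHom.mem_ker, outMap_mk, QuotientGroup.eq_one_iff] at hq
      obtain ⟨g', hg'⟩ := hq
      obtain ⟨g, rfl⟩ := QuotientGroup.mk_surjective g'
      refine ⟨MulAut.conj g⁻¹ * α, ?_, ?_⟩
      · rw [SetLike.mem_coe, mem_autJ, map_mul]
        have h1 : autMap π k (MulAut.conj g⁻¹) = MulAut.conj ((g⁻¹ : π) : π ⧸ gam π k) := by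
          ext q
          induction q using QuotientGroup.induction_on with
          | H x => rfl
        rw [h1, ← hg', QuotientGroup.mk_inv, ← map_mul, inv_mul_cancel, map_one]
      · have h2 : QuotientGroup.mk' (Inn π) (MulAut.conj g⁻¹) = 1 :=
          (QuotientGroup.eq_one_iff _).2 ⟨g⁻¹, rfl⟩
        rw [map_mul, h2, one_mul]
        rfl
  · rintro ⟨α, hα, rfl⟩
    rw [johnson, MonoidHom.mem_ker, QuotientGroup.mk'_apply, outMap_mk, mem_autJ.1 hα]
    rfl

theorem lcs_le (h : S_ANDR) (π : Type) [Group π] (k : ℕ) :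
    (⊤ : Subgroup (johnson π 1)).lowerCentralSeries k ≤
      (johnson π (k + 1)).subgroupOf (johnson π 1) := by
  induction k with
  | zero =>
    rw [zero_add, Subgroup.subgroupOf_self]
    exact le_top
  | succ k ih =>
    rw [Subgroup.lowerCentralSeries_succ, Subgroup.commutator_le]
    intro x hx y _
    have hx' := ih hx
    rw [Subgroup.mem_subgroupOf, johnson_eq] at hx'
    have hy' : (y : Out π) ∈ (autJ π 1).map (QuotientGroup.mk' (Inn π)) := by
      rw [← johnson_eq π 1]
      exact y.2
    obtain ⟨α, hα, hαx⟩ := hx'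
    obtain ⟨β, hβ, hβy⟩ := hy'
    rw [Subgroup.mem_subgroupOf, johnson_eq]
    refine ⟨⁅α, β⁆, ?_, ?_⟩
    · rw [SetLike.mem_coe, ← commutatorElement_inv]
      exact (autJ π (k + 1 + 1)).inv_mem
        (h π (k + 1) (Subgroup.commutator_mem_commutator hβ hα))
    · rw [map_commutatorElement, hαx, hβy]
      rfl

end Pool.Agent.N986.JF
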